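import Pool.Agent.W822.PD.StmC
import Pool.Agent.H342R3.Tig.RNG
import Pool.Agent.H342R3.Tig.ORB
import Pool.Agent.H342R3.Tig.POL
import Pool.Agent.H342R3.Pin.PLA
import Pool.Agent.H974R2.Plan4

/-!
The tracing path visits a pinch twice, with large excursions on both arcs.
-/

set_option autoImplicit false

namespace Pool.Agent.W469.PD.Cur

open H974 H12S Finset H389NS H984P H984N H342P H342L H342T
open Filter Topology Pool.Agent.W92.DP Pool.Agent.W822.PD

/-- The edge examined at a state with vertex close to `w` is an edge of the box around `w`. -/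
theorem ae_box {w : Vtx} {d : ℤ} {τ : St} (h : ¬ Far w d τ.1) :
    ae τ ∈ RE (w.1 - d) (w.1 + d) (w.2 - d) (w.2 + d) := by
  unfold Far at h
  push Not at h
  obtain ⟨⟨x, y⟩, q⟩ := τ
  simp only at h
  cases q
  · rw [ae_ne, mem_RE_true]; omega
  · rw [ae_nw, mem_RE_false]; omega
  · rw [ae_sw, mem_RE_true]; omega
  · rw [ae_se, mem_RE_false]; omega

/-- Between two visits on both sides of an open edge with two arms there is an excursion. -/
theorem excursion {F : Set Edg} {e : Edg} {w v2 u1 u2 : Vtx} {d : ℤ} (hd : 1 ≤ d) (he : e ∈ F)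
    (hor : (src e = w ∧ tgt e = v2) ∨ (src e = v2 ∧ tgt e = w))
    (hr1 : Reach (F \ {e}) w u1) (hr2 : Reach (F \ {e}) v2 u2) (hu1 : Far w d u1)
    (hu2 : Far w d u2) {τ : St} {T : ℕ}
    (hf : (face τ = dsrc e ∧ face (orb F τ T) = dtgt e) ∨
      (face τ = dtgt e ∧ face (orb F τ T) = dsrc e)) :
    ∃ s ≤ T, Far w d (orb F τ s).1 := by
  by_contra hcon
  push Not at hcon
  set W : Set Edg := ↑(RE (w.1 - d) (w.1 + d) (w.2 - d) (w.2 + d)) with hW
  have hdr : DReach (W \ F) (face τ) (face (orb F τ T)) :=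
    orb_dreach (F := F) (W := W) (σ := τ) (T := T)
      (fun s hs => Finset.mem_coe.mpr (ae_box (hcon s hs.le))) le_rfl
  have hw2 : (w.1 - 1 ≤ v2.1 ∧ v2.1 ≤ w.1 + 1) ∧ (w.2 - 1 ≤ v2.2 ∧ v2.2 ≤ w.2 + 1) := by
    obtain ⟨x, y, b⟩ := e
    cases b
    · rw [src_mk, tgt_false] at hor
      rcases hor with ⟨rfl, rfl⟩ | ⟨rfl, rfl⟩ <;> simp only <;> omega
    · rw [src_mk, tgt_true] at hor
      rcases hor with ⟨rfl, rfl⟩ | ⟨rfl, rfl⟩ <;> simp only <;> omega
  have heR : e ∈ RE (w.1 - d) (w.1 + d) (w.2 - d) (w.2 + d) := by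
    obtain ⟨x, y, b⟩ := e
    cases b
    · rw [src_mk, tgt_false] at hor
      rw [mem_RE_false]
      rcases hor with ⟨rfl, rfl⟩ | ⟨rfl, rfl⟩ <;> simp only <;> omega
    · rw [src_mk, tgt_true] at hor
      rw [mem_RE_true]
      rcases hor with ⟨rfl, rfl⟩ | ⟨rfl, rfl⟩ <;> simp only <;> omega
  set G : Set Edg := (F \ {e}) ∩ W with hG
  have hGsub : G ⊆ ↑(RE (w.1 - d) (w.1 + d) (w.2 - d) (w.2 + d)) := fun x hx => hx.2
  have harm : ∀ b u : Vtx, inR (w.1 - d) (w.1 + d) (w.2 - d) (w.2 + d) b → Far w d u →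
      Reach (F \ {e}) b u → ∃ z ∈ bdR (w.1 - d) (w.1 + d) (w.2 - d) (w.2 + d), Reach G b z := by
    intro b u hb hu hbu
    obtain ⟨z, h1, h2, h3⟩ := first_exit hb hbu hu
    exact ⟨z, ⟨h1, h2⟩, h3⟩
  have hwin : inR (w.1 - d) (w.1 + d) (w.2 - d) (w.2 + d) w := by
    unfold inR
    omega
  have hvin : inR (w.1 - d) (w.1 + d) (w.2 - d) (w.2 + d) v2 := by
    unfold inR
    omega
  have a1 := harm w u1 hwin hu1 hr1
  have a2 := harm v2 u2 hvin hu2 hr2
  have heG : e ∉ G := fun h => h.1.2 rfl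
  have hsep : ¬ DReach ((W \ G) \ {e}) (dsrc e) (dtgt e) := by
    rcases hor with ⟨h1, h2⟩ | ⟨h1, h2⟩
    · exact dual_sep hGsub heR heG (by rw [h1]; exact a1) (by rw [h2]; exact a2)
    · exact dual_sep hGsub heR heG (by rw [h1]; exact a2) (by rw [h2]; exact a1)
  have hsub : W \ F ⊆ (W \ G) \ {e} := by
    rintro x ⟨h1, h2⟩
    refine ⟨⟨h1, fun h => h2 h.1.1⟩, fun h => h2 ?_⟩
    rw [Set.mem_singleton_iff] at h
    rw [h]
    exact he
  rcases hf with ⟨h1, h2⟩ | ⟨h1, h2⟩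
  · rw [h1, h2] at hdr
    exact hsep (hdr.mono hsub)
  · rw [h1, h2] at hdr
    exact hsep (hdr.mono hsub).symm

/-- The value of a polygonal path at the time `j / N`. -/
theorem poly_at (f : ℕ → ℂ) {N j : ℕ} (hN : 0 < N) (hj : j ≤ N) {t : unitInterval}
    (ht : (t : ℝ) = j / N) : poly f N t = f j := by
  have hN' : (0 : ℝ) < N := by exact_mod_cast hN
  obtain ⟨-, h1, -, h2⟩ := t_POL f N hN
  rcases hj.lt_or_eq with h | h
  · have e1 : (N : ℝ) * (t : ℝ) = j := by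
      rw [ht]
      field_simp
    rw [h2 j h t e1.ge (by rw [e1]; linarith), e1, sub_self, Complex.ofReal_zero, zero_mul,
      add_zero]
  · have e1 : t = 1 := by
      apply Subtype.ext
      rw [ht, h]
      exact div_self hN'.ne'
    rw [e1, h1, h]

theorem time {N j : ℕ} (hN : 0 < N) (hj : j ≤ N) : ∃ t : unitInterval, (t : ℝ) = j / N := by
  have hN' : (0 : ℝ) < N := by exact_mod_cast hN
  have hj' : (j : ℝ) ≤ N := by exact_mod_cast hj
  exact ⟨⟨(j : ℝ) / N, by positivity, by rw [div_le_one hN']; exact hj'⟩, rfl⟩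

theorem time_le {N i j : ℕ} (hij : i ≤ j) {s t : unitInterval} (hs : (s : ℝ) = i / N)
    (ht : (t : ℝ) = j / N) : s ≤ t := by
  have hij' : (i : ℝ) ≤ j := by exact_mod_cast hij
  have h1 : (s : ℝ) ≤ t := by
    rw [hs, ht]
    gcongr
  exact h1

theorem main {n : ℕ} {F : Set Edg} {σ : St} {N : ℕ} (hN : 0 < N) (hper : orb F σ N = σ)
    {e : Edg} {w v2 u1 u2 : Vtx} {d : ℤ} (hd : 1 ≤ d) (he : e ∈ F)
    (hor : (src e = w ∧ tgt e = v2) ∨ (src e = v2 ∧ tgt e = w))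
    (hr1 : Reach (F \ {e}) w u1) (hr2 : Reach (F \ {e}) v2 u2) (hu1 : Far w d u1)
    (hu2 : Far w d u2) {i l : ℕ} (hil : i < l) (hl : l < N) (hi1 : (orb F σ i).1 = w)
    (hl1 : (orb F σ l).1 = w)
    (hf : (face (orb F σ i) = dsrc e ∧ face (orb F σ l) = dtgt e) ∨
      (face (orb F σ i) = dtgt e ∧ face (orb F σ l) = dsrc e)) {c : C(unitInterval, ℂ)}
    (hc : c = poly (fun j => pt n (orb F σ j).1) N) :
    ∃ s t : unitInterval, s ≤ t ∧ c s = pt n w ∧ c t = pt n w ∧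
      (∃ u : unitInterval, (s ≤ u ∧ u ≤ t) ∧ ((d:ℝ) - 1) / n ≤ dist (c u) (pt n w)) ∧
      ∃ u : unitInterval, (u ≤ s ∨ t ≤ u) ∧ ((d:ℝ) - 1) / n ≤ dist (c u) (pt n w) := by
  obtain ⟨s, hs⟩ := time (j := i) hN (by omega)
  obtain ⟨t, ht⟩ := time (j := l) hN (by omega)
  have hval : ∀ j ≤ N, ∀ t : unitInterval, (t : ℝ) = j / N → c t = pt n (orb F σ j).1 := by
    intro j hj t ht
    rw [hc, poly_at _ hN hj ht]
  have hfar : ∀ j ≤ N, ∀ t : unitInterval, (t : ℝ) = j / N → Far w d (orb F σ j).1 →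
      ((d:ℝ) - 1) / n ≤ dist (c t) (pt n w) := by
    intro j hj t ht h
    rw [hval j hj t ht]
    refine le_trans ?_ (H342N.PLA_far h)
    have hn : (0 : ℝ) ≤ n := Nat.cast_nonneg n
    gcongr
    linarith
  refine ⟨s, t, time_le hil.le hs ht, ?_, ?_, ?_, ?_⟩
  · rw [hval i (by omega) s hs, hi1]
  · rw [hval l (by omega) t ht, hl1]
  · have e1 : orb F (orb F σ i) (l - i) = orb F σ l := by
      rw [← orb_add, Nat.sub_add_cancel hil.le]
    obtain ⟨k, hk, h1⟩ := excursion hd he hor hr1 hr2 hu1 hu2 (τ := orb F σ i) (T := l - i)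
      (by rw [e1]; exact hf)
    rw [← orb_add] at h1
    obtain ⟨u, hu⟩ := time (j := k + i) hN (by omega)
    exact ⟨u, ⟨time_le (by omega) hs hu, time_le (by omega) hu ht⟩,
      hfar _ (by omega) u hu h1⟩
  · have e1 : orb F (orb F σ l) (N - l + i) = orb F σ i := by
      rw [← orb_add, show N - l + i + l = i + N by omega, orb_add, hper]
    obtain ⟨k, hk, h1⟩ := excursion hd he hor hr1 hr2 hu1 hu2 (τ := orb F σ l) (T := N - l + i)
      (by rw [e1]; exact hf.symm.imp And.symm And.symm)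
    rw [← orb_add] at h1
    by_cases hkN : k + l ≤ N
    · obtain ⟨u, hu⟩ := time (j := k + l) hN hkN
      exact ⟨u, Or.inr (time_le (by omega) ht hu), hfar _ hkN u hu h1⟩
    · have e2 : orb F σ (k + l) = orb F σ (k + l - N) := by
        rw [show k + l = (k + l - N) + N by omega, orb_add, hper]
        congr 1
        omega
      rw [e2] at h1
      obtain ⟨u, hu⟩ := time (j := k + l - N) hN (by omega)
      exact ⟨u, Or.inl (time_le (by omega) hu hs), hfar _ (by omega) u hu h1⟩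

theorem dsrc_ne_dtgt (e : Edg) : dsrc e ≠ dtgt e := by
  obtain ⟨x, y, b⟩ := e
  cases b
  · rw [dsrc_false, dtgt_mk]
    intro h
    have := congrArg Prod.fst h
    simp only at this
    omega
  · rw [dsrc_true, dtgt_mk]
    intro h
    have := congrArg Prod.snd h
    simp only at this
    omega

theorem inc_ends {e : Edg} {w v2 : Vtx} (hor : (src e = w ∧ tgt e = v2) ∨
    (src e = v2 ∧ tgt e = w)) : Inc w (dsrc e) ∧ Inc w (dtgt e) := by
  obtain ⟨x, y, b⟩ := e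
  unfold Inc
  cases b
  · rw [src_mk, tgt_false] at hor
    rw [dsrc_false, dtgt_mk]
    rcases hor with ⟨rfl, rfl⟩ | ⟨rfl, rfl⟩ <;> simp
  · rw [src_mk, tgt_true] at hor
    rw [dsrc_true, dtgt_mk]
    rcases hor with ⟨rfl, rfl⟩ | ⟨rfl, rfl⟩ <;> simp

theorem t_CUR : PD_CUR := by
  rintro n F v w d c hn hF ⟨σ, N, hN, hσ, ho, hper, -, hc⟩ hd
    ⟨e, v2, u1, u2, he, hor, hvw, ⟨hr1, hr2⟩, ⟨hu1, hu2⟩, ho1, ho2⟩
  constructor
  · have h1 : e ∈ RE 0 n 0 n := by
      rw [← Plain.edges_eq]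
      exact hF (Finset.mem_coe.1 he)
    have h2 : (0 ≤ w.1 ∧ w.1 ≤ n) ∧ (0 ≤ w.2 ∧ w.2 ≤ n) := by
      obtain ⟨x, y, b⟩ := e
      cases b
      · rw [src_mk, tgt_false] at hor
        rw [mem_RE_false] at h1
        rcases hor with ⟨rfl, rfl⟩ | ⟨rfl, rfl⟩ <;> simp only <;> omega
      · rw [src_mk, tgt_true] at hor
        rw [mem_RE_true] at h1
        rcases hor with ⟨rfl, rfl⟩ | ⟨rfl, rfl⟩ <;> simp only <;> omega
    have hn' : (0 : ℝ) < n := by exact_mod_cast hn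
    obtain ⟨⟨a1, a2⟩, a3, a4⟩ := h2
    have b1 : (0 : ℝ) ≤ w.1 := by exact_mod_cast a1
    have b2 : (w.1 : ℝ) ≤ n := by exact_mod_cast a2
    have b3 : (0 : ℝ) ≤ w.2 := by exact_mod_cast a3
    have b4 : (w.2 : ℝ) ≤ n := by exact_mod_cast a4
    refine ⟨?_, ?_, ?_, ?_⟩
    · show 0 ≤ (w.1 : ℝ) / n
      positivity
    · show (w.1 : ℝ) / n ≤ 1
      rw [div_le_one hn']
      exact b2
    · show 0 ≤ (w.2 : ℝ) / n
      positivity
    · show (w.2 : ℝ) / n ≤ 1
      rw [div_le_one hn']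
      exact b4
  · obtain ⟨i1, i2⟩ := inc_ends hor
    obtain ⟨q1, hq1⟩ := RNG_face i1
    obtain ⟨q2, hq2⟩ := RNG_face i2
    have hw : w ∈ Plain.cluster F v := (Plain.mem_cluster F v w).2 hvw
    obtain ⟨s1, hs1⟩ := t_ORB F v σ (w, q1) hσ hw ho (by
      rw [Plain.outer_iff, hq1]; exact ho1)
    obtain ⟨s2, hs2⟩ := t_ORB F v σ (w, q2) hσ hw ho (by
      rw [Plain.outer_iff, hq2]; exact ho2)
    rw [← RNG_mod hper] at hs1 hs2
    have m1 : s1 % N < N := Nat.mod_lt _ hN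
    have m2 : s2 % N < N := Nat.mod_lt _ hN
    have hne : s1 % N ≠ s2 % N := by
      intro h
      rw [h, hs2] at hs1
      have h3 : face (w, q2) = face (w, q1) := by rw [hs1]
      rw [hq1, hq2] at h3
      exact dsrc_ne_dtgt e h3.symm
    rcases lt_or_gt_of_ne hne with h | h
    · exact main hN hper hd he hor hr1 hr2 hu1 hu2 h m2 (by rw [hs1]) (by rw [hs2])
        (Or.inl ⟨by rw [hs1, hq1], by rw [hs2, hq2]⟩) hc
    · exact main hN hper hd he hor hr1 hr2 hu1 hu2 h m1 (by rw [hs2]) (by rw [hs1])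
        (Or.inr ⟨by rw [hs2, hq2], by rw [hs1, hq1]⟩) hc

end Pool.Agent.W469.PD.Cur
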